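import Pool.Agent.K7.H41.OP.Stm

/-! # Project OP, jobs SUB and RFC -/

set_option autoImplicit false

namespace Pool.Agent.K7.H61.OP

open Pool.Agent.K7.H41.OP

theorem center_prod {A B : Type} [Group A] [Group B] {z : A × B} :
    z ∈ Subgroup.center (A × B) ↔ z.1 ∈ Subgroup.center A ∧ z.2 ∈ Subgroup.center B := by
  simp only [Subgroup.mem_center_iff]
  constructor
  · intro h
    exact ⟨fun a => congrArg Prod.fst (h (a, 1)), fun b => congrArg Prod.snd (h (1, b))⟩
  · rintro ⟨h1, h2⟩ ⟨a, b⟩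
    exact Prod.ext (h1 a) (h2 b)

theorem map_center {G : Type} [Group G] (φ : MulAut G) {z : G} (hz : z ∈ Subgroup.center G) :
    φ z ∈ Subgroup.center G := by
  rw [Subgroup.mem_center_iff] at hz ⊢
  intro g
  have h := congrArg φ (hz (φ.symm g))
  simpa using h

theorem be_mul {A B : Type} [Group A] [Group B] (φ ψ : MulAut (A × B)) (b : B) :
    be (φ * ψ) b = (φ (be ψ b, 1)).1 * be φ (de ψ b) := by
  have h : ψ (1, b) = (be ψ b, 1) * (1, de ψ b) := by
    simp [be, de]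
  show (φ (ψ (1, b))).1 = _
  rw [h, map_mul]
  rfl

theorem ga_mul {A B : Type} [Group A] [Group B] (φ ψ : MulAut (A × B)) (a : A) :
    ga (φ * ψ) a = ga φ (al ψ a) * (φ (1, ga ψ a)).2 := by
  have h : ψ (a, 1) = (al ψ a, 1) * (1, ga ψ a) := by
    simp [al, ga]
  show (φ (ψ (a, 1))).2 = _
  rw [h, map_mul]
  rfl

theorem cen_mul {A B : Type} [Group A] [Group B] {φ ψ : MulAut (A × B)}
    (h1 : Cen (be φ) ∧ Cen (ga φ)) (h2 : Cen (be ψ) ∧ Cen (ga ψ)) :
    Cen (be (φ * ψ)) ∧ Cen (ga (φ * ψ)) := by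
  constructor
  · intro b
    rw [be_mul]
    refine mul_mem ?_ (h1.1 _)
    have hc : ((be ψ b, (1 : B)) : A × B) ∈ Subgroup.center (A × B) :=
      center_prod.2 ⟨h2.1 b, one_mem _⟩
    exact (center_prod.1 (map_center φ hc)).1
  · intro a
    rw [ga_mul]
    refine mul_mem (h1.2 _) ?_
    have hc : (((1 : A), ga ψ a) : A × B) ∈ Subgroup.center (A × B) :=
      center_prod.2 ⟨one_mem _, h2.2 a⟩
    exact (center_prod.1 (map_center φ hc)).2

theorem sub : StSub := by
  intro A B _ _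
  refine ⟨{ carrier := {φ | Z0 φ}, mul_mem' := ?_, one_mem' := ?_, inv_mem' := ?_ },
    fun φ => Iff.rfl, ?_⟩
  · intro φ ψ h1 h2
    refine ⟨cen_mul h1.1 h2.1, ?_⟩
    rw [mul_inv_rev]
    exact cen_mul h2.2 h1.2
  · have h : Cen (be (1 : MulAut (A × B))) ∧ Cen (ga (1 : MulAut (A × B))) :=
      ⟨fun b => by simp [be], fun a => by simp [ga]⟩
    refine ⟨h, ?_⟩
    rw [inv_one]
    exact h
  · intro φ h
    refine ⟨h.2, ?_⟩
    rw [inv_inv]
    exact h.1
  · have h : ∀ g : A × B, Cen (be (MulAut.conj g)) ∧ Cen (ga (MulAut.conj g)) := by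
      intro g
      exact ⟨fun b => by simp [be, MulAut.conj_apply], fun a => by simp [ga, MulAut.conj_apply]⟩
    rintro _ ⟨g, rfl⟩
    refine ⟨h g, ?_⟩
    rw [← map_inv]
    exact h g⁻¹

theorem rfc : StRfc := by
  intro B _ hB b hb
  rw [Subgroup.mem_center_iff] at hb
  push Not at hb
  obtain ⟨c, hc⟩ := hb
  have h1 : (c * b) * (b * c)⁻¹ ≠ 1 := by
    intro h
    exact hc (mul_inv_eq_one.1 h)
  obtain ⟨N0, hN, hf, hn⟩ := hB _ h1
  have := hN
  have := hf
  refine ⟨(Subgroup.center (B ⧸ N0)).comap (QuotientGroup.mk' N0), inferInstance, ?_, ?_, ?_⟩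
  · refine Subgroup.finiteIndex_of_le (H := N0) ?_
    intro x hx
    rw [Subgroup.mem_comap]
    have : QuotientGroup.mk' N0 x = 1 := by
      simpa using hx
    rw [this]
    exact one_mem _
  · intro x hx
    rw [Subgroup.mem_comap, Subgroup.mem_center_iff]
    intro y
    obtain ⟨y, rfl⟩ := QuotientGroup.mk'_surjective N0 y
    rw [← map_mul, ← map_mul, Subgroup.mem_center_iff.1 hx y]
  · intro hx
    rw [Subgroup.mem_comap, Subgroup.mem_center_iff] at hx
    have h2 := hx (QuotientGroup.mk' N0 c)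
    rw [← map_mul, ← map_mul] at h2
    apply hn
    have h3 : QuotientGroup.mk' N0 ((c * b) * (b * c)⁻¹) = 1 := by
      rw [map_mul, map_inv, h2, mul_inv_cancel]
    exact (QuotientGroup.eq_one_iff _).1 h3

end Pool.Agent.K7.H61.OP
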