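import Pool.Agent.K7.H41.OP.Stm

/-! # Project OP, job ORB -/

set_option autoImplicit false

namespace Pool.Agent.K7.H61.OP

open Pool.Agent.K7.H41.OP

theorem finite_hom (G S : Type) [Group G] [Group S] [Finite S] (hG : Group.FG G) :
    Finite (G →* S) := by
  obtain ⟨T, hT, hf⟩ := Group.fg_iff.1 hG
  have : Finite T := hf
  refine Finite.of_injective (fun f : G →* S => fun t : T => f t) ?_
  intro f g h
  refine MonoidHom.eq_of_eqOn_dense hT ?_
  intro t ht
  exact congrFun h ⟨t, ht⟩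

theorem cos {G X : Type} [Group G] [Finite X] (H : Subgroup G) (f : G → X)
    (h : ∀ g g' : G, f g = f g' → g⁻¹ * g' ∈ H) : H.FiniteIndex := by
  have : Finite (G ⧸ H) := by
    refine Finite.of_injective (fun x : G ⧸ H => f x.out) ?_
    intro x y hxy
    have h1 := h _ _ hxy
    have h2 : ((x.out : G) : G ⧸ H) = (y.out : G) := QuotientGroup.eq.2 h1
    simpa using h2
  exact Subgroup.finiteIndex_of_finite_quotient

/-- a normal subgroup of finite index that contains the centre and no direct factor -/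
theorem exists_N (hR : StRfc) (B : Type) [Group B] (hB : RF B) (hD : DF B) :
    ∃ N : Subgroup B, N.Normal ∧ N.FiniteIndex ∧ Subgroup.center B ≤ N ∧
      ∀ E F : Subgroup B, E.Normal → F.Normal → E ⊓ F = Subgroup.center B → E ⊔ F = ⊤ → F ≤ N →
        F = Subgroup.center B := by
  classical
  set Z := Subgroup.center B with hZ
  let π : B →* B ⧸ Z := QuotientGroup.mk' Z
  have hπ : Function.Surjective π := QuotientGroup.mk'_surjective Z
  have hker : π.ker = Z := QuotientGroup.ker_mk' Z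
  -- for every D that is not trivial an element
  have h1 : ∀ D : Subgroup (B ⧸ Z), D ≠ ⊥ → ∃ N : Subgroup B, N.Normal ∧ N.FiniteIndex ∧ Z ≤ N ∧
      ∃ b : B, π b ∈ D ∧ b ∉ N := by
    intro D hD0
    obtain ⟨⟨x, hx⟩, hx1⟩ := (Subgroup.ne_bot_iff_exists_ne_one).1 hD0
    obtain ⟨b, hb⟩ := hπ x
    have hbZ : b ∉ Z := by
      intro h
      rw [← hker, MonoidHom.mem_ker, hb] at h
      exact hx1 (Subtype.ext h)
    obtain ⟨N, h2, h3, h4, h5⟩ := hR B hB b hbZ
    exact ⟨N, h2, h3, h4, b, by rw [hb]; exact hx, h5⟩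
  choose! N hN1 hN2 hN3 b hb1 hb2 using h1
  have hD' : {D : Subgroup (B ⧸ Z) | D.Normal ∧
    ∃ D' : Subgroup (B ⧸ Z), D'.Normal ∧ IsCompl D D'}.Finite := hD
  set T : Finset (Subgroup (B ⧸ Z)) := hD'.toFinset.filter fun D => D ≠ ⊥ with hT
  refine ⟨⨅ D : T, N D.1, ?_, ?_, ?_, ?_⟩
  · exact Subgroup.normal_iInf_normal fun D => hN1 D.1 (Finset.mem_filter.1 D.2).2
  · refine Subgroup.finiteIndex_iInf fun D => hN2 D.1 (Finset.mem_filter.1 D.2).2
  · exact le_iInf fun D => hN3 D.1 (Finset.mem_filter.1 D.2).2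
  · intro E F hE hF hEF hEF2 hFN
    have hZE : Z ≤ E := hEF ▸ inf_le_left
    have hZF : Z ≤ F := hEF ▸ inf_le_right
    have := hE
    have := hF
    by_contra hne
    have hD1 : F.map π ≠ ⊥ := by
      intro h
      apply hne
      refine le_antisymm ?_ hZF
      intro x hx
      have h2 : π x ∈ F.map π := Subgroup.mem_map_of_mem _ hx
      rw [h, Subgroup.mem_bot] at h2
      rw [← hker]
      exact h2
    have hcomap : (F.map π).comap π = F := by
      rw [Subgroup.comap_map_eq, hker, sup_eq_left.2 hZF]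
    have hcomapE : (E.map π).comap π = E := by
      rw [Subgroup.comap_map_eq, hker, sup_eq_left.2 hZE]
    have hmem : F.map π ∈ T := by
      rw [hT, Finset.mem_filter]
      refine ⟨?_, hD1⟩
      rw [Set.Finite.mem_toFinset]
      refine ⟨hF.map π hπ, E.map π, hE.map π hπ, ?_⟩
      constructor
      · rw [disjoint_iff, eq_bot_iff]
        intro x hx
        obtain ⟨y, rfl⟩ := hπ x
        have hy1 : y ∈ F := by
          rw [← hcomap]
          exact hx.1
        have hy2 : y ∈ E := by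
          rw [← hcomapE]
          exact hx.2
        have hy3 : y ∈ Z := by
          rw [← hEF]
          exact ⟨hy2, hy1⟩
        rw [← hker] at hy3
        exact hy3
      · rw [codisjoint_iff, ← Subgroup.map_sup, sup_comm, hEF2]
        exact Subgroup.map_top_of_surjective π hπ
    have h3 : b (F.map π) ∈ (F.map π).comap π := hb1 _ hD1
    rw [hcomap] at h3
    exact hb2 _ hD1 ((iInf_le (fun D : T => N D.1) ⟨_, hmem⟩) (hFN h3))

theorem orb (hFac : StFac) (hR : StRfc) : StOrb := by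
  intro A B _ _ hA hB hRF hDF H0 hH0
  obtain ⟨N, hN, hNf, hZN, hNF⟩ := exists_N hR B hRF hDF
  have := hN
  have := hNf
  have : Finite (B ⧸ N) := Subgroup.finite_quotient_of_finiteIndex
  have := finite_hom A (B ⧸ N) hA
  have := finite_hom B (B ⧸ N) hB
  have key : ∀ χ : MulAut (A × B), (∀ x : A × B, QuotientGroup.mk' N (χ x).2 =
      QuotientGroup.mk' N x.2) → Cen (be χ) ∧ Cen (ga χ⁻¹) := by
    intro χ hχ
    obtain ⟨E, F, hE, hF, hEn, hFn, hEF, hEF2, hlast⟩ := hFac A B χ
    have hFN : F ≤ N := by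
      intro x hx
      have h1 := hχ (1, x)
      have h2 : de χ x ∈ N := hZN ((hF x).1 hx)
      have h3 : QuotientGroup.mk' N (χ (1, x)).2 = 1 := by
        have : QuotientGroup.mk' N (de χ x) = 1 := by simpa using h2
        exact this
      rw [h3] at h1
      have h4 : QuotientGroup.mk' N x = 1 := h1.symm
      simpa using h4
    have hFZ := hNF E F hEn hFn hEF hEF2 hFN
    have hEt : E = ⊤ := by
      rw [← hEF2, hFZ, ← hEF]
      exact (sup_eq_left.2 inf_le_left).symm
    refine ⟨fun x => (hE x).1 (by rw [hEt]; trivial), hlast hEt⟩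
  let f : MulAut (A × B) → (A →* B ⧸ N) × (B →* B ⧸ N) := fun φ =>
    ((QuotientGroup.mk' N).comp (ga φ⁻¹), (QuotientGroup.mk' N).comp (de φ⁻¹))
  refine cos H0 f ?_
  intro ψ φ h
  rw [hH0]
  have h1 : ∀ y : A × B, QuotientGroup.mk' N (ψ⁻¹ y).2 = QuotientGroup.mk' N (φ⁻¹ y).2 := by
    rintro ⟨x, y⟩
    have h2 := DFunLike.congr_fun (congrArg Prod.fst h) x
    have h3 := DFunLike.congr_fun (congrArg Prod.snd h) y
    have h4 : ((x, y) : A × B) = (x, 1) * (1, y) := by simp
    rw [h4, map_mul, map_mul, Prod.snd_mul, Prod.snd_mul, map_mul, map_mul]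
    exact congrArg₂ (· * ·) h2 h3
  have h5 := key (ψ⁻¹ * φ) fun x => by
    have h6 := h1 (φ x)
    rw [MulAut.mul_apply, h6, MulAut.inv_apply_self]
  have h7 := key (ψ⁻¹ * φ)⁻¹ fun x => by
    have h6 := h1 (ψ x)
    rw [mul_inv_rev, inv_inv, MulAut.mul_apply, ← h6, MulAut.inv_apply_self]
  rw [inv_inv] at h7
  exact ⟨⟨h5.1, h7.2⟩, h7.1, h5.2⟩

end Pool.Agent.K7.H61.OP
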